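import Pool.Agent.H.MP_beddab_an.C
import Pool.Agent.H.MP_beddab_an.D

namespace Pool.Agent.Results.MP_beddab_an.Main

universe u

/-- A closed subspace in which every point has exactly one best approximation. -/
def IsChebyshev {𝕜 : Type} [RCLike 𝕜] {X : Type u} [NormedAddCommGroup X] [NormedSpace 𝕜 X]
    (G : Submodule 𝕜 X) : Prop :=
  IsClosed (G : Set X) ∧ ∀ x : X, ∃! g : X, g ∈ G ∧ ‖x - g‖ = Metric.infDist x (G : Set X)

/-- The dual of `E` has a weak-star closed Chebyshev subspace of codimension `n`. -/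
def HasCheb (𝕜 : Type) [RCLike 𝕜] (E : Type u) [NormedAddCommGroup E] [NormedSpace 𝕜 E]
    (n : ℕ) : Prop :=
  ∃ Γ : Submodule 𝕜 (StrongDual 𝕜 E),
    IsClosed (StrongDual.toWeakDual '' (Γ : Set (StrongDual 𝕜 E)) : Set (WeakDual 𝕜 E)) ∧
    Module.rank 𝕜 (StrongDual 𝕜 E ⧸ Γ) = n ∧ IsChebyshev Γ

theorem result (𝕜 : Type) [RCLike 𝕜] :
    (∀ (n : ℕ) (E : Type u) [NormedAddCommGroup E] [NormedSpace 𝕜 E] [CompleteSpace E]
      [TopologicalSpace.SeparableSpace E], (n : Cardinal) ≤ Module.rank 𝕜 E → HasCheb 𝕜 E n) ∧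
    (∃ (E : Type) (_ : NormedAddCommGroup E) (_ : NormedSpace 𝕜 E),
      TopologicalSpace.SeparableSpace E ∧ Cardinal.aleph0 ≤ Module.rank 𝕜 E ∧
      ∀ n : ℕ, 1 ≤ n → ¬ HasCheb 𝕜 E n) := by
  refine ⟨fun n E _ _ _ _ hn => ?_, ⟨Pool.Agent.H.MP_beddab_an.C00 𝕜, inferInstance, inferInstance,
    Pool.Agent.H.MP_beddab_an.sep, Pool.Agent.H.MP_beddab_an.rank_inf, ?_⟩⟩
  · obtain ⟨Γ, h1, h2, h3, h4⟩ := Pool.Agent.H.MP_beddab_an.positive hn
    exact ⟨Γ, h1, h2, h3, h4⟩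
  · rintro n hn ⟨Γ, h1, h2, -, h4⟩
    exact Pool.Agent.H.MP_beddab_an.negative hn Γ h1 h2 h4

end Pool.Agent.Results.MP_beddab_an.Main
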